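import Mathlib

namespace Pool.Agent.H.MP_d8403e_co

open Finset Pointwise

def ab (S : Finset ℤ) : ℕ := #((S ×ˢ S).image fun p => (p.1 - p.2).natAbs)

lemma card_diff {S : Finset ℤ} (h : S.Nonempty) :
    ∃ k, #(S - S) = 2 * k + 1 ∧ ab S ≤ k + 1 := by
  obtain ⟨x, hx⟩ := h
  set Pz := (S - S).filter (0 < ·)
  have sym : ∀ d ∈ S - S, -d ∈ S - S := fun d hd => by
    obtain ⟨a, ha, b, hb, rfl⟩ := mem_sub.1 hd
    rw [neg_sub]; exact sub_mem_sub hb ha
  refine ⟨#Pz, ?_, ?_⟩
  · have : S - S = insert 0 (Pz ∪ Pz.image (-·)) := by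
      ext d
      simp only [mem_insert, mem_union, mem_image, Pz, mem_filter]
      constructor
      · intro hd
        rcases lt_trichotomy d 0 with c | c | c
        exacts [Or.inr (Or.inr ⟨-d, ⟨sym d hd, by omega⟩, neg_neg d⟩), Or.inl c,
          Or.inr (Or.inl ⟨hd, c⟩)]
      · rintro (rfl | h | ⟨e, h, rfl⟩)
        exacts [sub_self x ▸ sub_mem_sub hx hx, h.1, sym e h.1]
    rw [this, card_insert_of_notMem (by simp [Pz]), card_union_of_disjoint,
      card_image_of_injective _ neg_injective, two_mul]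
    simp only [disjoint_left, mem_image, Pz, mem_filter]
    rintro a ⟨-, h⟩ ⟨b, ⟨-, k⟩, rfl⟩; omega
  · refine (card_le_card (t := insert 0 (Pz.image Int.natAbs)) fun d hd => ?_).trans
      ((card_insert_le _ _).trans (Nat.succ_le_succ card_image_le))
    obtain ⟨⟨a, b⟩, hp, rfl⟩ := mem_image.1 hd
    obtain ⟨ha, hb⟩ := mem_product.1 hp
    simp only [mem_insert, mem_image, Pz, mem_filter]
    rcases lt_trichotomy a b with c | c | c
    exacts [Or.inr ⟨b - a, ⟨sub_mem_sub hb ha, by omega⟩, by omega⟩, Or.inl (by omega),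
      Or.inr ⟨a - b, ⟨sub_mem_sub ha hb, by omega⟩, rfl⟩]

def Sidon (T : Finset ℤ) : Prop := ∀ a ∈ T, ∀ b ∈ T, ∀ c ∈ T, ∀ d ∈ T, a + d = b + c → a = b ∨ a = c

lemma Sidon.le {T S : Finset ℤ} (h : Sidon T) (hs : T ⊆ S) (hn : S.Nonempty) :
    #T * #T - #T + 1 ≤ #(S - S) := by
  obtain ⟨x, hx⟩ := hn
  rw [← offDiag_card, ← card_image_of_injOn (f := fun p : ℤ × ℤ => p.1 - p.2),
    ← card_insert_of_notMem (a := 0)]
  · refine card_le_card fun d hd => ?_
    rcases mem_insert.1 hd with rfl | hd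
    · exact sub_self x ▸ sub_mem_sub hx hx
    · obtain ⟨p, hp, rfl⟩ := mem_image.1 hd
      exact sub_mem_sub (hs (mem_offDiag.1 hp).1) (hs (mem_offDiag.1 hp).2.1)
  · simp only [mem_image, mem_offDiag, not_exists, not_and]
    intro p hp; omega
  · intro p hp q hq e
    obtain ⟨a1, a2, a3⟩ := mem_offDiag.1 hp
    obtain ⟨b1, b2, b3⟩ := mem_offDiag.1 hq
    have := h _ a1 _ a2 _ b1 _ b2 (by simp only at e; omega)
    simp only at e
    exact Prod.ext (by omega) (by omega)

lemma diff_le (S : Finset ℤ) (R : Finset (ℤ × ℤ)) (hR : R ⊆ S.offDiag)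
    (h : ∀ p ∈ R, ∃ q ∈ S.offDiag \ R, q.1 - q.2 = p.1 - p.2) :
    #(S - S) + #R ≤ #S * #S - #S + 1 := by
  have : S - S ⊆ insert 0 ((S.offDiag \ R).image fun p => p.1 - p.2) := fun d hd => by
    obtain ⟨a, ha, b, hb, rfl⟩ := mem_sub.1 hd
    by_cases c : a = b
    · simp [c]
    by_cases e : (a, b) ∈ R
    · obtain ⟨q, h1, h2⟩ := h _ e
      exact mem_insert_of_mem (mem_image.2 ⟨q, h1, h2⟩)
    · exact mem_insert_of_mem (mem_image.2 ⟨(a, b), by simp [ha, hb, c, e], rfl⟩)
  have h1 := (card_le_card this).trans ((card_insert_le _ _).trans (Nat.succ_le_succ card_image_le))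
  rw [← offDiag_card, ← card_sdiff_add_card_eq_card hR]; omega

lemma par_le {S : Finset ℤ} {a b c d : ℤ} (ha : a ∈ S) (hb : b ∈ S) (hc : c ∈ S) (hd : d ∈ S)
    (e : a + d = b + c) (h1 : a ≠ b) (h2 : a ≠ c) (h3 : a ≠ d) (h4 : b ≠ c) :
    #(S - S) + 4 ≤ #S * #S - #S + 1 := by
  have := diff_le S {(c, d), (d, c), (b, d), (d, b)} (by
    intro p hp
    simp only [mem_insert, mem_singleton] at hp
    rcases hp with rfl | rfl | rfl | rfl <;> simp [*] <;> omega) (by
    intro p hp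
    simp only [mem_insert, mem_singleton] at hp
    rcases hp with rfl | rfl | rfl | rfl
    exacts [⟨(a, b), by simp [ha, hb]; omega, by simp; omega⟩,
      ⟨(b, a), by simp [ha, hb]; omega, by simp; omega⟩,
      ⟨(a, c), by simp [ha, hc]; omega, by simp; omega⟩,
      ⟨(c, a), by simp [ha, hc]; omega, by simp; omega⟩])
  rwa [card_insert_of_notMem (by simp; omega), card_insert_of_notMem (by simp; omega),
    card_pair (by simp; omega)] at this

def φ {k : ℕ} (t c : Fin k → ℤ) : ℤ := ∑ i, c i * t i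

lemma φ_add {k : ℕ} (t c d : Fin k → ℤ) : φ t (c + d) = φ t c + φ t d := by
  simp [φ, add_mul, sum_add_distrib]
lemma φ_sub {k : ℕ} (t c d : Fin k → ℤ) : φ t (c - d) = φ t c - φ t d := by
  simp [φ, sub_mul, sum_sub_distrib]
lemma φ_single {k : ℕ} (t : Fin k → ℤ) (i : Fin k) (x : ℤ) : φ t (Pi.single i x) = x * t i := by
  simp [φ, Pi.single_apply]

def Gen {k : ℕ} (t : Fin k → ℤ) : Prop := ∀ c : Fin k → ℤ, (∀ i, |c i| ≤ 16) → φ t c = 0 → c = 0

noncomputable def tup (k n : ℕ) : Finset (Fin k → ℤ) := Fintype.piFinset fun _ => Ico (0 : ℤ) n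

open Classical in
lemma nongen (k n : ℕ) : #{t ∈ tup (k + 1) n | ¬ Gen t} ≤ 33 ^ (k + 1) * n ^ k := by
  let C := (Fintype.piFinset fun _ : Fin (k + 1) => Icc (-16 : ℤ) 16)
  refine (card_le_card (t := C.biUnion fun c => {t ∈ tup (k + 1) n | c ≠ 0 ∧ φ t c = 0})
    fun t ht => ?_).trans ((card_biUnion_le_card_mul _ _ (n ^ k) fun c _ => ?_).trans ?_)
  · obtain ⟨h1, h2⟩ := mem_filter.1 ht
    simp only [Gen, not_forall] at h2
    obtain ⟨c, a1, a2, a3⟩ := h2
    exact mem_biUnion.2 ⟨c, Fintype.mem_piFinset.2 fun i => mem_Icc.2 (abs_le.1 (a1 i)),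
      mem_filter.2 ⟨h1, a3, a2⟩⟩
  · by_cases h : c = 0
    · simp [h]
    obtain ⟨i, hi⟩ := Function.ne_iff.1 h
    refine (card_le_card_of_injOn (t := tup k n) (fun t j => t (i.succAbove j)) (fun t ht => ?_)
      fun t ht s hs e => ?_).trans (by simp [tup])
    · exact Fintype.mem_piFinset.2 fun j => Fintype.mem_piFinset.1 (mem_filter.1 ht).1 _
    · have a := (mem_filter.1 ht).2.2
      have b := (mem_filter.1 hs).2.2
      have e' : ∀ j, t (i.succAbove j) = s (i.succAbove j) := congrFun e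
      rw [φ, Fin.sum_univ_succAbove _ i] at a b
      simp only [e'] at a
      have : t i = s i := mul_left_cancel₀ hi (by linarith)
      funext j
      rcases Fin.eq_self_or_eq_succAbove i j with rfl | ⟨l, rfl⟩
      exacts [this, e' l]
  · simp [C]

lemma Gen.sidon {k : ℕ} {t : Fin k → ℤ} (h : Gen t) {a b c d : Fin k}
    (e : t a + t d = t b + t c) : a = b ∨ a = c := by
  have := congrFun (h (Pi.single a 1 + Pi.single d 1 - (Pi.single b 1 + Pi.single c 1)) (fun i => by
    simp only [Pi.sub_apply, Pi.add_apply, Pi.single_apply]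
    split_ifs <;> norm_num) (by simp only [φ_sub, φ_add, φ_single]; omega)) a
  by_contra k
  push Not at k
  simp only [Pi.sub_apply, Pi.add_apply, Pi.single_apply, k.1, k.2, if_true, if_false,
    Pi.zero_apply] at this
  split_ifs at this <;> omega

lemma Gen.inj {k : ℕ} {t : Fin k → ℤ} (h : Gen t) : Function.Injective t := fun a b e =>
  (h.sidon (a := a) (b := b) (c := b) (d := b) (by rw [e])).elim id id

lemma card_img {α β γ : Type} [DecidableEq β] [DecidableEq γ] (s : Finset α) (f : α → β)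
    (g : α → γ) (h : ∀ a ∈ s, ∀ b ∈ s, f a = f b → g a = g b) : #(s.image g) ≤ #(s.image f) := by
  classical
  rcases s.eq_empty_or_nonempty with rfl | ⟨x, -⟩
  · simp
  refine card_le_card_of_surjOn (fun y => if h : ∃ a ∈ s, f a = y then g h.choose else g x) ?_
  intro z hz
  obtain ⟨a, ha, rfl⟩ := mem_image.1 hz
  have e : ∃ b ∈ s, f b = f a := ⟨a, ha, rfl⟩
  exact ⟨f a, mem_image_of_mem _ ha, by
    simp only [dif_pos e]; exact h _ e.choose_spec.1 _ ha e.choose_spec.2⟩

def β : Fin 6 → ℤ := ![1, 10, 100, 1000, 10000, 100000]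

def dl : List ℤ → List ℕ
  | [] => [0]
  | a :: l => l.map (fun b => (a - b).natAbs) ++ dl l

lemma mem_dl {x : ℕ} : ∀ l : List ℤ, x ∈ dl l → x = 0 ∨ ∃ a ∈ l, ∃ b ∈ l, x = (a - b).natAbs
  | [], h => Or.inl (by simpa [dl] using h)
  | a :: l, h => by
    rcases List.mem_append.1 h with h | h
    · obtain ⟨b, hb, rfl⟩ := List.mem_map.1 h
      exact Or.inr ⟨a, by simp, b, by simp [hb], rfl⟩
    · exact (mem_dl l h).imp id fun ⟨a, ha, b, hb, e⟩ => ⟨a, by simp [ha], b, by simp [hb], e⟩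

lemma transfer {t : Fin 6 → ℤ} (h : Gen t) (W : List (Fin 6 → ℤ)) (hn : W ≠ [])
    (hW : ∀ w ∈ W, ∀ i, |w i| ≤ 4) (S : Finset ℤ) (hS : ∀ w ∈ W, ∃ s ∈ S, φ t w = 2 * s) :
    (dl (W.map (φ β))).dedup.length ≤ ab S := by
  rw [← List.card_toFinset]
  calc _ ≤ #((W.toFinset ×ˢ W.toFinset).image fun p => (φ β p.1 - φ β p.2).natAbs) := by
        refine card_le_card fun x hx => ?_
        rcases mem_dl _ (List.mem_toFinset.1 hx) with rfl | ⟨a, ha, b, hb, rfl⟩
        · obtain ⟨w, hw⟩ := List.exists_mem_of_ne_nil W hn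
          exact mem_image.2 ⟨(w, w), by simp [hw], by simp⟩
        · obtain ⟨a, ha', rfl⟩ := List.mem_map.1 ha
          obtain ⟨b, hb', rfl⟩ := List.mem_map.1 hb
          exact mem_image.2 ⟨(a, b), by simp [ha', hb'], rfl⟩
    _ ≤ #((W.toFinset ×ˢ W.toFinset).image fun p => (φ t p.1 - φ t p.2).natAbs) := by
        refine card_img _ _ _ fun p hp q hq e => ?_
        simp only [mem_product, List.mem_toFinset] at hp hq
        have b : ∀ i, |p.1 i| ≤ 4 ∧ |p.2 i| ≤ 4 ∧ |q.1 i| ≤ 4 ∧ |q.2 i| ≤ 4 := fun i =>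
          ⟨hW _ hp.1 i, hW _ hp.2 i, hW _ hq.1 i, hW _ hq.2 i⟩
        simp only [abs_le] at b
        rcases Int.natAbs_eq_natAbs_iff.1 e with e | e
        · have := congrArg (φ β) (sub_eq_zero.1 (h (p.1 - p.2 - (q.1 - q.2)) (fun i => by
            have := b i; simp only [Pi.sub_apply, abs_le]; omega) (by simp only [φ_sub]; omega)))
          simp only [φ_sub] at this; omega
        · have := congrArg (φ β) (sub_eq_zero.1 (h (p.1 - p.2 - (q.2 - q.1)) (fun i => by
            have := b i; simp only [Pi.sub_apply, abs_le]; omega) (by simp only [φ_sub]; omega)))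
          simp only [φ_sub] at this; omega
    _ ≤ #(((S ×ˢ S).image fun p => (p.1 - p.2).natAbs).image (2 * ·)) := by
        refine card_le_card fun x hx => ?_
        obtain ⟨p, hp, rfl⟩ := mem_image.1 hx
        simp only [mem_product, List.mem_toFinset] at hp
        obtain ⟨a, ha, e1⟩ := hS _ hp.1
        obtain ⟨b, hb, e2⟩ := hS _ hp.2
        exact mem_image.2 ⟨_, mem_image.2 ⟨(a, b), by simp [ha, hb], rfl⟩, by simp only; omega⟩
    _ ≤ _ := card_image_le

abbrev Cand := Fin 6 × Fin 6 × Option (Fin 6)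

def cv : Cand → Fin 6 → ℤ
  | (a, b, none) => Pi.single a 1 + Pi.single b 1
  | (a, b, some c) => Pi.single a 2 + Pi.single b 2 - Pi.single c 2

def XL : List ℤ := [-199996, -199978, -199960, -199798, -199780, -199600, -197998, -197980, -197800, -196000,
  -179998, -179980, -179800, -178000, -160000, -19996, -19978, -19960, -19798, -19780,
  -19600, -17998, -17980, -17800, -16000, -1996, -1978, -1960, -1798, -1780,
  -1600, -196, -178, -160, -16, 11, 38, 101, 110, 182,
  218, 380, 398, 1001, 1010, 1100, 1802, 1820, 1982, 2018,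
  2180, 2198, 3800, 3980, 3998, 10001, 10010, 10100, 11000, 18002,
  18020, 18200, 19802, 19820, 19982, 20018, 20180, 20198, 21800, 21980,
  21998, 38000, 39800, 39980, 39998, 100001, 100010, 100100, 101000, 110000,
  180002, 180020, 180200, 182000, 198002, 198020, 198200, 199802, 199820, 199982,
  200018, 200180, 200198, 201800, 201980, 201998, 218000, 219800, 219980, 219998,
  380000, 398000, 399800, 399980, 399998]

def base : List (Fin 6 → ℤ) :=
  [Pi.single 0 2, Pi.single 1 2, Pi.single 2 2, Pi.single 3 2, Pi.single 4 2, Pi.single 5 2]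

lemma chk1 : ∀ x ∈ XL, ∀ y ∈ XL, x < y →
    22 ≤ (dl (x :: y :: [2, 20, 200, 2000, 20000, 200000])).dedup.length := by decide +kernel

lemma chk2 : ∀ p : Cand, (∀ i, |cv p i| ≤ 4) ∧ (cv p ∈ base ∨ φ β (cv p) ∈ XL) := by
  decide +kernel

lemma chk3 : ∀ p q : Cand, φ β (cv p) = φ β (cv q) → cv p = cv q := by
  intro p q h
  have a := (chk2 p).1
  have b := (chk2 q).1
  simp only [abs_le] at a b
  simp only [φ, β, Fin.sum_univ_six] at h
  have := a 0; have := a 1; have := a 2; have := a 3; have := a 4; have := a 5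
  have := b 0; have := b 1; have := b 2; have := b 3; have := b 4; have := b 5
  simp at h
  funext i
  fin_cases i <;> simp <;> omega

lemma base_map : base.map (φ β) = [2, 20, 200, 2000, 20000, 200000] := by decide +kernel

lemma base_ok {t : Fin 6 → ℤ} {S : Finset ℤ} (h : ∀ i, t i ∈ S) :
    ∀ w ∈ base, (∀ i, |w i| ≤ 4) ∧ ∃ s ∈ S, φ t w = 2 * s := by
  intro w hw
  obtain ⟨j, rfl⟩ : ∃ j, w = Pi.single j 2 := by
    simp only [base, List.mem_cons, List.not_mem_nil, or_false] at hw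
    rcases hw with h | h | h | h | h | h <;> exact ⟨_, h⟩
  exact ⟨fun i => by rw [Pi.single_apply]; split_ifs <;> norm_num, _, h j, φ_single _ _ _⟩

lemma big {t : Fin 6 → ℤ} (h : Gen t) {S : Finset ℤ} (h1 : ∀ i, t i ∈ S)
    (h2 : ∀ x ∈ S, ∃ p, φ t (cv p) = 2 * x) (h3 : 8 ≤ #S) : 43 ≤ #(S - S) := by
  obtain ⟨x, hx, y, hy, ne⟩ := one_lt_card.1 (show 1 < #(S \ univ.image t) by
    have := le_card_sdiff (univ.image t) S
    have := card_image_le (s := univ) (f := t)
    simp at this; omega)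
  simp only [mem_sdiff, mem_image, mem_univ, true_and, not_exists] at hx hy
  obtain ⟨p, hp⟩ := h2 x hx.1
  obtain ⟨q, hq⟩ := h2 y hy.1
  have nb : ∀ {x p}, (∀ i, ¬ t i = x) → φ t (cv p) = 2 * x → φ β (cv p) ∈ XL := by
    intro x p a b
    refine (chk2 p).2.resolve_left fun c => ?_
    simp only [base, List.mem_cons, List.not_mem_nil, or_false] at c
    rcases c with c | c | c | c | c | c <;> rw [c, φ_single] at b <;>
      exact a _ (mul_left_cancel₀ two_ne_zero b)
  have k : ∀ {x y p q}, x ∈ S → y ∈ S → φ t (cv p) = 2 * x → φ t (cv q) = 2 * y →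
      φ β (cv p) ∈ XL → φ β (cv q) ∈ XL → φ β (cv p) < φ β (cv q) → 22 ≤ ab S := by
    intro x y p q hx hy a b c d e
    refine (chk1 _ c _ d e).trans ?_
    rw [← base_map]
    refine transfer h (cv p :: cv q :: base) (by simp) ?_ S ?_
    all_goals
      intro w hw
      rcases List.mem_cons.1 hw with rfl | hw
      · first | exact (chk2 p).1 | exact ⟨x, hx, a⟩
      rcases List.mem_cons.1 hw with rfl | hw
      · first | exact (chk2 q).1 | exact ⟨y, hy, b⟩
      first | exact (base_ok h1 w hw).1 | exact (base_ok h1 w hw).2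
  obtain ⟨m, m1, m2⟩ := card_diff ⟨x, hx.1⟩
  rcases lt_trichotomy (φ β (cv p)) (φ β (cv q)) with c | c | c
  · have := k hx.1 hy.1 hp hq (nb hx.2 hp) (nb hy.2 hq) c; omega
  · rw [chk3 p q c] at hp; omega
  · have := k hy.1 hx.1 hq hp (nb hy.2 hq) (nb hx.2 hp) c; omega

lemma cover {S : Finset ℤ} (hn : S.Nonempty) (h : #(S - S) ≤ 41) :
    ∃ t : Fin 6 → ℤ, (∀ i, t i ∈ S) ∧ ∀ x ∈ S, ∃ p, φ t (cv p) = 2 * x := by
  classical
  obtain ⟨T, hT, hm⟩ := exists_max_image {T ∈ S.powerset | Sidon T} card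
    ⟨∅, mem_filter.2 ⟨by simp, fun a ha => by simp at ha⟩⟩
  simp only [mem_filter, mem_powerset] at hT hm
  have c6 : #T ≤ 6 := by
    have := (hT.2.le hT.1 hn).trans h
    by_contra k
    have : 7 * #T ≤ #T * #T := Nat.mul_le_mul_right _ (by omega)
    omega
  obtain ⟨x0, h0⟩ := hn
  obtain ⟨t, t1, t2⟩ : ∃ t : Fin 6 → ℤ, (∀ i, t i ∈ S) ∧ ∀ x ∈ T, ∃ i, t i = x := by
    refine ⟨fun i => T.toList.getD i x0, fun i => ?_, fun x hx => ?_⟩
    · beta_reduce
      by_cases c : i.val < T.toList.length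
      · rw [List.getD_eq_getElem _ _ c]; exact hT.1 (mem_toList.1 (List.getElem_mem c))
      · rw [List.getD_eq_default _ _ (not_lt.1 c)]; exact h0
    · obtain ⟨i, hi, rfl⟩ := List.getElem_of_mem (mem_toList.2 hx)
      exact ⟨⟨i, by rw [length_toList] at hi; omega⟩, List.getD_eq_getElem _ _ hi⟩
  refine ⟨t, t1, fun x hx => ?_⟩
  have k1 : ∀ a ∈ T, ∀ b ∈ T, ∀ c ∈ T, x + c = a + b → ∃ p, φ t (cv p) = 2 * x := by
    intro a ha b hb c hc e
    obtain ⟨a, rfl⟩ := t2 a ha
    obtain ⟨b, rfl⟩ := t2 b hb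
    obtain ⟨c, rfl⟩ := t2 c hc
    exact ⟨(a, b, some c), by simp only [cv, φ_sub, φ_add, φ_single]; omega⟩
  have k2 : ∀ a ∈ T, ∀ b ∈ T, x + x = a + b → ∃ p, φ t (cv p) = 2 * x := by
    intro a ha b hb e
    obtain ⟨a, rfl⟩ := t2 a ha
    obtain ⟨b, rfl⟩ := t2 b hb
    exact ⟨(a, b, none), by simp only [cv, φ_add, φ_single]; omega⟩
  by_cases c : x ∈ T
  · exact k2 x c x c rfl
  have : ¬ Sidon (insert x T) := fun k => by
    have := hm _ ⟨insert_subset hx hT.1, k⟩
    rw [card_insert_of_notMem c] at this; omega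
  simp only [Sidon, not_forall, mem_insert] at this
  obtain ⟨a, ha, b, hb, c, hc, d, hd, e, ne⟩ := this
  rcases ha with rfl | ha <;> rcases hb with rfl | hb <;> rcases hc with rfl | hc <;>
    rcases hd with rfl | hd <;> first
      | omega
      | exact k2 _ hb _ hc e
      | exact k2 _ ha _ hd e.symm
      | exact k1 _ hb _ hc _ hd e
      | exact k1 _ hb _ hc _ ha (by omega)
      | exact k1 _ ha _ hd _ hc e.symm
      | exact k1 _ ha _ hd _ hb (by omega)
      | exact (ne (hT.2 _ ha _ hb _ hc _ hd e)).elim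

end Pool.Agent.H.MP_d8403e_co
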